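import Pool.Agent.Y727.FG.Stm

/-!
FG/IDEM and FG/NORM (helper657): doubly stochastic idempotents, Frobenius norm
-/

set_option autoImplicit false

namespace Pool.Agent.Y657.FG

open Finset Pool.Agent.Y727.FG

variable {n : ℕ}

/-- fixed vectors are constant along positive entries -/
theorem fixed {E : Matrix (Fin n) (Fin n) ℝ} (hE : DS E) {x : Fin n → ℝ}
    (hx : ∀ i, ∑ j, E i j * x j = x i) {i j : Fin n} (hij : 0 < E i j) : x i = x j := by
  obtain ⟨h0, hr, hc⟩ := hE
  have hsum : ∑ i, ∑ j, E i j * (x i - x j) ^ 2 = 0 := by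
    have e1 : ∀ i, ∑ j, E i j * (x i - x j) ^ 2 =
        x i ^ 2 - 2 * x i * x i + ∑ j, E i j * x j ^ 2 := by
      intro i
      have : ∀ j, E i j * (x i - x j) ^ 2 =
          E i j * x i ^ 2 - 2 * x i * (E i j * x j) + E i j * x j ^ 2 := by
        intro j; ring
      simp only [this]
      rw [Finset.sum_add_distrib, Finset.sum_sub_distrib, ← Finset.sum_mul, ← Finset.mul_sum,
        hr, hx, one_mul]
    simp only [e1]
    rw [Finset.sum_add_distrib, Finset.sum_comm (f := fun i j => E i j * x j ^ 2)]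
    have e2 : ∀ j, ∑ i, E i j * x j ^ 2 = x j ^ 2 := by
      intro j
      rw [← Finset.sum_mul, hc, one_mul]
    simp only [e2]
    rw [← Finset.sum_add_distrib]
    apply Finset.sum_eq_zero
    intro i _
    ring
  have h1 : ∀ i ∈ (univ : Finset (Fin n)), 0 ≤ ∑ j, E i j * (x i - x j) ^ 2 := fun i _ =>
    Finset.sum_nonneg fun j _ => mul_nonneg (h0 i j) (sq_nonneg _)
  have h2 := (Finset.sum_eq_zero_iff_of_nonneg h1).1 hsum i (mem_univ i)
  have h3 := (Finset.sum_eq_zero_iff_of_nonneg
    (fun j _ => mul_nonneg (h0 i j) (sq_nonneg _))).1 h2 j (mem_univ j)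
  have h4 : (x i - x j) ^ 2 = 0 := (mul_eq_zero.1 h3).resolve_left hij.ne'
  have h5 : x i - x j = 0 := by
    rwa [sq_eq_zero_iff] at h4
  linarith

theorem DS.tr {E : Matrix (Fin n) (Fin n) ℝ} (hE : DS E) : DS E.transpose :=
  ⟨fun i j => hE.1 j i, hE.2.2, hE.2.1⟩

/-- rows are equal along positive entries -/
theorem rows {E : Matrix (Fin n) (Fin n) ℝ} (hE : DS E) (hEE : E * E = E) {i j : Fin n}
    (hij : 0 < E i j) (k : Fin n) : E i k = E j k := by
  refine fixed hE (x := fun i => E i k) (fun i => ?_) hij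
  have := congrFun (congrFun hEE i) k
  rwa [Matrix.mul_apply] at this

/-- columns are equal along positive entries -/
theorem cols {E : Matrix (Fin n) (Fin n) ℝ} (hE : DS E) (hEE : E * E = E) {i j : Fin n}
    (hij : 0 < E i j) (k : Fin n) : E k i = E k j := by
  have h1 : E.transpose * E.transpose = E.transpose := by
    rw [← Matrix.transpose_mul, hEE]
  exact (rows (DS.tr hE) h1 (i := j) (j := i) hij k).symm

theorem t_idem : S_idem := by
  intro n E hE hEE
  have h0 := hE.1
  have hpos : ∀ i, 0 < E i i := by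
    intro i
    obtain ⟨k, -, hk⟩ : ∃ k ∈ (univ : Finset (Fin n)), E i k ≠ 0 := by
      apply Finset.exists_ne_zero_of_sum_ne_zero
      rw [hE.2.1 i]
      exact one_ne_zero
    have hk' : 0 < E i k := lt_of_le_of_ne (h0 i k) (Ne.symm hk)
    rw [cols hE hEE hk' i]
    exact hk'
  have hmain : ∀ i j, E i j ≠ 0 → E i j = E i i ∧ E j j = E i i ∧ ∀ k, E i k = E j k := by
    intro i j hij
    have hij' : 0 < E i j := lt_of_le_of_ne (h0 i j) (Ne.symm hij)
    have r := rows hE hEE hij'
    have c := cols hE hEE hij'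
    refine ⟨(c i).symm, ?_, r⟩
    rw [← r j, ← c i]
  refine ⟨fun i j => ?_, hpos, hmain⟩
  by_cases hij : E i j = 0
  · by_contra hne
    have hji : E j i ≠ 0 := fun h => hne (by rw [hij, h])
    obtain ⟨-, h2, h3⟩ := hmain j i hji
    have h4 := h3 j
    rw [← h4] at hij
    exact (hpos j).ne' hij
  · obtain ⟨h1, h2, h3⟩ := hmain i j hij
    rw [h1]
    exact h3 i

theorem t_norm : S_idem → S_vdw → S_norm := by
  intro hI hV n E X hE hEE hX hXE hfro
  obtain ⟨hsym, hpos, hm⟩ := hI n E hE hEE
  have hE0 := hE.1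
  have hX0 := hX.1
  -- entries of a column of `E`
  have hcol : ∀ k j, E k j ≠ 0 → E k j = E j j := by
    intro k j h
    rw [(hm k j h).1, (hm k j h).2.1]
  have hXe : ∀ i j, X i j = ∑ k, X i k * E k j := by
    intro i j
    have := congrFun (congrFun hXE i) j
    rw [Matrix.mul_apply] at this
    exact this.symm
  have hle : ∀ i j, X i j ≤ E j j := by
    intro i j
    rw [hXe]
    calc ∑ k, X i k * E k j ≤ ∑ k, X i k * E j j := by
          apply Finset.sum_le_sum
          intro k _
          apply mul_le_mul_of_nonneg_left _ (hX0 i k)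
          by_cases h : E k j = 0
          · rw [h]; exact (hpos j).le
          · exact (hcol k j h).le
      _ = E j j := by rw [← Finset.sum_mul, hX.2.1, one_mul]
  have hfE : fro E = ∑ j, E j j := by
    unfold fro
    apply Finset.sum_congr rfl
    intro i _
    have : ∀ j, E i j ^ 2 = E i j * E i i := by
      intro j
      by_cases h : E i j = 0
      · rw [h]; ring
      · rw [sq]
        nth_rewrite 2 [(hm i j h).1]
        rfl
    simp only [this]
    rw [← Finset.sum_mul, hE.2.1, one_mul]
  have hfX : ∑ i, ∑ j, X i j * (E j j - X i j) = ∑ j, E j j - fro X := by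
    have : ∀ i, ∑ j, X i j * (E j j - X i j) = ∑ j, X i j * E j j - ∑ j, X i j ^ 2 := by
      intro i
      rw [← Finset.sum_sub_distrib]
      exact Finset.sum_congr rfl fun j _ => by ring
    simp only [this]
    rw [Finset.sum_sub_distrib, Finset.sum_comm (f := fun i j => X i j * E j j)]
    congr 1
    apply Finset.sum_congr rfl
    intro j _
    rw [← Finset.sum_mul, hX.2.2, one_mul]
  have hnn : ∀ i j, 0 ≤ X i j * (E j j - X i j) := fun i j =>
    mul_nonneg (hX0 i j) (by linarith [hle i j])
  have hzero : ∑ i, ∑ j, X i j * (E j j - X i j) = 0 := by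
    apply le_antisymm
    · rw [hfX]; linarith
    · exact Finset.sum_nonneg fun i _ => Finset.sum_nonneg fun j _ => hnn i j
  have hdich : ∀ i j, X i j = 0 ∨ X i j = E j j := by
    intro i j
    have h1 := (Finset.sum_eq_zero_iff_of_nonneg
      (fun i _ => Finset.sum_nonneg fun j _ => hnn i j)).1 hzero i (mem_univ i)
    have h2 := (Finset.sum_eq_zero_iff_of_nonneg (fun j _ => hnn i j)).1 h1 j (mem_univ j)
    rcases mul_eq_zero.1 h2 with h | h
    · exact Or.inl h
    · right; linarith
  -- a permutation in the support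
  have hper : X.permanent ≠ 0 := by
    have h1 := hV n X hX
    have h2 : 0 < (n.factorial : ℝ) / (n : ℝ) ^ n := by
      rcases Nat.eq_zero_or_pos n with h | h
      · subst h; norm_num
      · positivity
    linarith
  obtain ⟨τ, -, hτ⟩ : ∃ τ ∈ (univ : Finset (Equiv.Perm (Fin n))), ∏ i, X (τ i) i ≠ 0 := by
    apply Finset.exists_ne_zero_of_sum_ne_zero
    exact hper
  have hτ' : ∀ i, X (τ i) i ≠ 0 := fun i => Finset.prod_ne_zero_iff.1 hτ i (mem_univ i)
  refine ⟨τ⁻¹, fun i j => ?_⟩
  obtain ⟨a, ha⟩ : ∃ a, a = τ⁻¹ i := ⟨_, rfl⟩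
  rw [← ha]
  have hia : X i a ≠ 0 := by
    have : i = τ a := by rw [ha]; simp
    rw [this]
    exact hτ' a
  have hia' : X i a = E a a := (hdich i a).resolve_left hia
  have hon : ∀ j, E a j ≠ 0 → X i j = E a j := by
    intro j hj
    have hcj : ∀ k, E k j = E k a := by
      intro k
      rw [hsym k j, hsym k a]
      exact ((hm a j hj).2.2 k).symm
    have : X i j = X i a := by
      rw [hXe i j, hXe i a]
      exact Finset.sum_congr rfl fun k _ => by rw [hcj k]
    rw [this, hia', (hm a j hj).1]
  by_cases hj : E a j = 0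
  · rw [hj]
    -- all the mass of the row is on the class of `a`
    have h1 : ∑ j, (X i j - E a j) = 0 := by
      rw [Finset.sum_sub_distrib, hX.2.1, hE.2.1, sub_self]
    have h2 : ∀ j ∈ (univ : Finset (Fin n)), 0 ≤ X i j - E a j := by
      intro j _
      by_cases h : E a j = 0
      · rw [h, sub_zero]; exact hX0 i j
      · rw [hon j h, sub_self]
    have h3 := (Finset.sum_eq_zero_iff_of_nonneg h2).1 h1 j (mem_univ j)
    rw [hj, sub_zero] at h3
    exact h3
  · exact hon j hj

end Pool.Agent.Y657.FG
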